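import Pool.Agent.H92.EC.Xw

/-!
# Project EC, K1: derivatives of the kernel `u_w`

`u = y ^ kap * (|w - b|^2 + dl^2) ^ (-q/2)` with `b = F z`, `c = F' z`, `e = F'' z`,
`z = x + i y`.  We prove that `UX`, `UY`, `UXY` of `H92.EC.Xw` are the derivatives of `u`
(both forms of the mixed derivative), that `log u` has a strictly negative Laplacian, and
joint continuity.
-/

set_option autoImplicit false

open Set MeasureTheory Filter Topology

namespace H34.EC

open H92.EC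

/-- the kernel `u` -/
noncomputable def UU (q kap dl y : ℝ) (b w : ℂ) : ℝ := y ^ kap * MW dl b w ^ (-(q / 2))

/-- `log u` -/
noncomputable def GG (q kap dl y : ℝ) (b w : ℂ) : ℝ :=
  kap * Real.log y - q / 2 * Real.log (MW dl b w)

/-- `d_x log u` -/
noncomputable def GX (q dl : ℝ) (b c w : ℂ) : ℝ :=
  q * ((starRingEnd ℂ) (w - b) * c).re / MW dl b w

/-- `d_y log u` -/
noncomputable def GY (q kap dl y : ℝ) (b c w : ℂ) : ℝ :=
  kap / y + q * ((starRingEnd ℂ) (w - b) * (Complex.I * c)).re / MW dl b w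

/-- `d_x d_x log u` -/
noncomputable def GXX (q dl : ℝ) (b c e w : ℂ) : ℝ :=
  q * ((((starRingEnd ℂ) (w - b) * e).re - ‖c‖ ^ 2) / MW dl b w +
    2 * ((starRingEnd ℂ) (w - b) * c).re ^ 2 / MW dl b w ^ 2)

/-- `d_y d_y log u` -/
noncomputable def GYY (q kap dl y : ℝ) (b c e w : ℂ) : ℝ :=
  -(kap / y ^ 2) + q * ((-((starRingEnd ℂ) (w - b) * e).re - ‖c‖ ^ 2) / MW dl b w +
    2 * ((starRingEnd ℂ) (w - b) * (Complex.I * c)).re ^ 2 / MW dl b w ^ 2)

/-- `d_x d_y log u` -/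
noncomputable def GXY (q dl : ℝ) (b c e w : ℂ) : ℝ :=
  q * (((starRingEnd ℂ) (w - b) * (Complex.I * e)).re / MW dl b w +
    2 * ((starRingEnd ℂ) (w - b) * c).re * ((starRingEnd ℂ) (w - b) * (Complex.I * c)).re /
      MW dl b w ^ 2)

theorem MW_pos {dl : ℝ} (hdl : 0 < dl) (b w : ℂ) : 0 < MW dl b w := by
  unfold MW
  positivity

theorem UU_pos {q kap dl y : ℝ} (hdl : 0 < dl) (hy : 0 < y) (b w : ℂ) :
    0 < UU q kap dl y b w := by
  have := MW_pos hdl b w
  unfold UU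
  positivity

theorem UU_eq_exp {q kap dl y : ℝ} (hdl : 0 < dl) (hy : 0 < y) (b w : ℂ) :
    UU q kap dl y b w = Real.exp (GG q kap dl y b w) := by
  have hM := MW_pos hdl b w
  unfold UU GG
  rw [Real.rpow_def_of_pos hy, Real.rpow_def_of_pos hM, ← Real.exp_add]
  congr 1
  ring

theorem log_UU {q kap dl y : ℝ} (hdl : 0 < dl) (hy : 0 < y) (b w : ℂ) :
    Real.log (UU q kap dl y b w) = GG q kap dl y b w := by
  rw [UU_eq_exp hdl hy, Real.log_exp]

theorem UX_eq {q kap dl y : ℝ} (hdl : 0 < dl) (b c w : ℂ) :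
    UX q kap dl y b c w = UU q kap dl y b w * GX q dl b c w := by
  have hM := MW_pos hdl b w
  unfold UX UU GX
  rw [Real.rpow_sub_one hM.ne']
  field_simp

theorem UY_eq {q kap dl y : ℝ} (hdl : 0 < dl) (hy : 0 < y) (b c w : ℂ) :
    UY q kap dl y b c w = UU q kap dl y b w * GY q kap dl y b c w := by
  have hM := MW_pos hdl b w
  unfold UY UU GY
  rw [Real.rpow_sub_one hM.ne', Real.rpow_sub_one hy.ne']
  field_simp

theorem UXY_eq {q kap dl y : ℝ} (hdl : 0 < dl) (hy : 0 < y) (b c e w : ℂ) :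
    UXY q kap dl y b c e w = UU q kap dl y b w *
      (GXY q dl b c e w + GX q dl b c w * GY q kap dl y b c w) := by
  have hM := MW_pos hdl b w
  have h2 : MW dl b w ^ (-(q / 2) - 2) = MW dl b w ^ (-(q / 2)) / MW dl b w ^ 2 := by
    rw [← Real.rpow_natCast (MW dl b w) 2, ← Real.rpow_sub hM]
    push_cast
    ring_nf
  unfold UXY UU GXY GX GY
  rw [h2, Real.rpow_sub_one hM.ne', Real.rpow_sub_one hy.ne']
  field_simp
  ring

/-- **The Laplacian of `log u`** -/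
theorem GXX_add_GYY {q kap dl y : ℝ} (hdl : 0 < dl) (b c e w : ℂ) :
    GXX q dl b c e w + GYY q kap dl y b c e w =
      -(kap / y ^ 2) - 2 * q * ‖c‖ ^ 2 * dl ^ 2 / MW dl b w ^ 2 := by
  have hM := MW_pos hdl b w
  have h1 : ((starRingEnd ℂ) (w - b) * c).re ^ 2 +
      ((starRingEnd ℂ) (w - b) * (Complex.I * c)).re ^ 2 = ‖w - b‖ ^ 2 * ‖c‖ ^ 2 := by
    rw [← Complex.normSq_eq_norm_sq, ← Complex.normSq_eq_norm_sq, Complex.normSq_apply,
      Complex.normSq_apply]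
    simp
    ring
  have h2 : ‖w - b‖ ^ 2 = MW dl b w - dl ^ 2 := by
    unfold MW
    ring
  rw [h2] at h1
  unfold GXX GYY
  have h3 : q * ((((starRingEnd ℂ) (w - b) * e).re - ‖c‖ ^ 2) / MW dl b w +
      2 * ((starRingEnd ℂ) (w - b) * c).re ^ 2 / MW dl b w ^ 2) +
      (-(kap / y ^ 2) + q * ((-((starRingEnd ℂ) (w - b) * e).re - ‖c‖ ^ 2) / MW dl b w +
      2 * ((starRingEnd ℂ) (w - b) * (Complex.I * c)).re ^ 2 / MW dl b w ^ 2)) =
      -(kap / y ^ 2) - 2 * q * ‖c‖ ^ 2 / MW dl b w +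
        2 * q * (((starRingEnd ℂ) (w - b) * c).re ^ 2 +
          ((starRingEnd ℂ) (w - b) * (Complex.I * c)).re ^ 2) / MW dl b w ^ 2 := by
    ring
  rw [h3, h1]
  field_simp
  ring

theorem GXX_add_GYY_neg {q kap dl y : ℝ} (hq : 0 ≤ q) (hkap : 0 < kap) (hdl : 0 < dl)
    (hy : 0 < y) (b c e w : ℂ) :
    GXX q dl b c e w + GYY q kap dl y b c e w < 0 := by
  rw [GXX_add_GYY hdl]
  have hM := MW_pos hdl b w
  have h1 : 0 < kap / y ^ 2 := by positivity
  have h2 : 0 ≤ 2 * q * ‖c‖ ^ 2 * dl ^ 2 / MW dl b w ^ 2 := by positivity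
  linarith

/-! ## Derivatives -/

section deriv

variable {q kap dl : ℝ} {w : ℂ}

/-- change of form of a derivative -/
theorem hd_of {f g : ℝ → ℝ} {f' g' t : ℝ} (h : HasDerivAt f f' t) (h1 : ∀ s, g s = f s)
    (h2 : g' = f') : HasDerivAt g g' t := by
  rw [h2, funext h1]
  exact h

/-- the real part of a product with a conjugate, along a real line -/
theorem hasDerivAt_dot {a b : ℝ → ℂ} {a' b' : ℂ} {t : ℝ} (ha : HasDerivAt a a' t)
    (hb : HasDerivAt b b' t) :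
    HasDerivAt (fun s => ((starRingEnd ℂ) (a s) * b s).re)
      (((starRingEnd ℂ) a' * b t).re + ((starRingEnd ℂ) (a t) * b').re) t := by
  have h1 : HasDerivAt (fun s => (starRingEnd ℂ) (a s)) ((starRingEnd ℂ) a') t :=
    (Complex.conjCLE.toContinuousLinearMap.hasFDerivAt (x := a t)).comp_hasDerivAt t ha
  have h2 := (Complex.reCLM.hasFDerivAt (x := (starRingEnd ℂ) (a t) * b t)).comp_hasDerivAt t
    (h1.mul hb)
  rw [← Complex.add_re]
  exact h2

theorem hasDerivAt_MW {b : ℝ → ℂ} {b' : ℂ} {t : ℝ} (hb : HasDerivAt b b' t) (w : ℂ) :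
    HasDerivAt (fun s => MW dl (b s) w) (-(2 * ((starRingEnd ℂ) (w - b t) * b').re)) t := by
  have h0 : ∀ s, MW dl (b s) w = ((starRingEnd ℂ) (w - b s) * (w - b s)).re + dl ^ 2 := by
    intro s
    unfold MW
    rw [← Complex.normSq_eq_norm_sq, Complex.normSq_apply]
    simp
    ring
  have h1 : HasDerivAt (fun s => w - b s) (-b') t := hb.const_sub w
  have h2 := (hasDerivAt_dot h1 h1).add_const (dl ^ 2)
  have h3 : ((starRingEnd ℂ) (-b') * (w - b t)).re + ((starRingEnd ℂ) (w - b t) * -b').re =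
      -(2 * ((starRingEnd ℂ) (w - b t) * b').re) := by
    simp
    ring
  rw [h3] at h2
  exact h2.congr_of_eventuallyEq (Eventually.of_forall h0)

theorem hasDerivAt_MW_rpow {b : ℝ → ℂ} {b' : ℂ} {t : ℝ} (hdl : 0 < dl) (hb : HasDerivAt b b' t)
    (w : ℂ) (s : ℝ) :
    HasDerivAt (fun r => MW dl (b r) w ^ s)
      (-(2 * s) * MW dl (b t) w ^ (s - 1) * ((starRingEnd ℂ) (w - b t) * b').re) t := by
  have h1 := (hasDerivAt_MW (dl := dl) hb w).rpow_const (p := s) (Or.inl (MW_pos hdl _ _).ne')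
  exact hd_of h1 (fun _ => rfl) (by ring)

theorem hasDerivAt_log_MW {b : ℝ → ℂ} {b' : ℂ} {t : ℝ} (hdl : 0 < dl) (hb : HasDerivAt b b' t)
    (w : ℂ) :
    HasDerivAt (fun r => Real.log (MW dl (b r) w))
      (-(2 * ((starRingEnd ℂ) (w - b t) * b').re) / MW dl (b t) w) t :=
  (hasDerivAt_MW (dl := dl) hb w).log (MW_pos hdl _ _).ne'

/-- derivative of `Re (conj (w - b) c) / MW` -/
theorem hasDerivAt_dot_div {b c : ℝ → ℂ} {b' c' : ℂ} {t : ℝ} (hdl : 0 < dl)
    (hb : HasDerivAt b b' t) (hc : HasDerivAt c c' t) (w : ℂ) :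
    HasDerivAt (fun r => ((starRingEnd ℂ) (w - b r) * c r).re / MW dl (b r) w)
      ((((starRingEnd ℂ) (w - b t) * c').re - ((starRingEnd ℂ) b' * c t).re) / MW dl (b t) w +
        2 * ((starRingEnd ℂ) (w - b t) * c t).re * ((starRingEnd ℂ) (w - b t) * b').re /
          MW dl (b t) w ^ 2) t := by
  have hM := MW_pos hdl (b t) w
  have h1 : HasDerivAt (fun s => w - b s) (-b') t := hb.const_sub w
  have h2 := (hasDerivAt_dot h1 hc).div (hasDerivAt_MW (dl := dl) hb w) hM.ne'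
  refine hd_of h2 (fun _ => rfl) ?_
  rw [map_neg, neg_mul, Complex.neg_re]
  field_simp
  ring

/-- restriction of a complex derivative to the horizontal line -/
theorem hasDerivAt_hor {f : ℂ → ℂ} {f' : ℂ} {x y : ℝ}
    (h : HasDerivAt f f' ((x : ℂ) + (y : ℂ) * Complex.I)) :
    HasDerivAt (fun t : ℝ => f ((t : ℂ) + (y : ℂ) * Complex.I)) f' x := by
  have h1 : HasDerivAt (fun t : ℝ => ((t : ℂ) + (y : ℂ) * Complex.I)) 1 x :=
    (Complex.ofRealCLM.hasDerivAt (x := x)).add_const _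
  have h2 := HasDerivAt.scomp (h := fun t : ℝ => ((t : ℂ) + (y : ℂ) * Complex.I)) x h h1
  simpa [Function.comp_def] using h2

/-- restriction of a complex derivative to the vertical line -/
theorem hasDerivAt_ver {f : ℂ → ℂ} {f' : ℂ} {x y : ℝ}
    (h : HasDerivAt f f' ((x : ℂ) + (y : ℂ) * Complex.I)) :
    HasDerivAt (fun t : ℝ => f ((x : ℂ) + (t : ℂ) * Complex.I)) (Complex.I * f') y := by
  have h1 : HasDerivAt (fun t : ℝ => ((x : ℂ) + (t : ℂ) * Complex.I)) Complex.I y := by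
    simpa using ((Complex.ofRealCLM.hasDerivAt (x := y)).mul_const Complex.I).const_add (x : ℂ)
  have h2 := HasDerivAt.scomp (h := fun t : ℝ => ((x : ℂ) + (t : ℂ) * Complex.I)) y h h1
  simpa [Function.comp_def] using h2

end deriv

/-! ## The kernel along `z = x + i y` -/

section plane

variable {q kap dl : ℝ} {F F' F'' : ℂ → ℂ} {x y : ℝ}

/-- `d_x u = UX` -/
theorem hasDerivAt_UU_x (hdl : 0 < dl)
    (h1 : HasDerivAt F (F' ((x : ℂ) + (y : ℂ) * Complex.I)) ((x : ℂ) + (y : ℂ) * Complex.I))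
    (w : ℂ) :
    HasDerivAt (fun t : ℝ => UU q kap dl y (F ((t : ℂ) + (y : ℂ) * Complex.I)) w)
      (UX q kap dl y (F ((x : ℂ) + (y : ℂ) * Complex.I)) (F' ((x : ℂ) + (y : ℂ) * Complex.I)) w)
      x := by
  have h2 := (hasDerivAt_MW_rpow hdl (hasDerivAt_hor h1) w (-(q / 2))).const_mul (y ^ kap)
  refine hd_of h2 (fun _ => rfl) ?_
  unfold UX
  ring

/-- `d_y u = UY` -/
theorem hasDerivAt_UU_y (hdl : 0 < dl) (hy : 0 < y)
    (h1 : HasDerivAt F (F' ((x : ℂ) + (y : ℂ) * Complex.I)) ((x : ℂ) + (y : ℂ) * Complex.I))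
    (w : ℂ) :
    HasDerivAt (fun t : ℝ => UU q kap dl t (F ((x : ℂ) + (t : ℂ) * Complex.I)) w)
      (UY q kap dl y (F ((x : ℂ) + (y : ℂ) * Complex.I)) (F' ((x : ℂ) + (y : ℂ) * Complex.I)) w)
      y := by
  have h2 := (Real.hasDerivAt_rpow_const (x := y) (p := kap) (Or.inl hy.ne')).mul
    (hasDerivAt_MW_rpow hdl (hasDerivAt_ver h1) w (-(q / 2)))
  refine hd_of h2 (fun _ => rfl) ?_
  unfold UY
  ring

/-- `d_y d_x u = UXY` -/
theorem hasDerivAt_UX_y (hdl : 0 < dl) (hy : 0 < y)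
    (h1 : HasDerivAt F (F' ((x : ℂ) + (y : ℂ) * Complex.I)) ((x : ℂ) + (y : ℂ) * Complex.I))
    (h2 : HasDerivAt F' (F'' ((x : ℂ) + (y : ℂ) * Complex.I)) ((x : ℂ) + (y : ℂ) * Complex.I))
    (w : ℂ) :
    HasDerivAt (fun t : ℝ => UX q kap dl t (F ((x : ℂ) + (t : ℂ) * Complex.I))
        (F' ((x : ℂ) + (t : ℂ) * Complex.I)) w)
      (UXY q kap dl y (F ((x : ℂ) + (y : ℂ) * Complex.I)) (F' ((x : ℂ) + (y : ℂ) * Complex.I))
        (F'' ((x : ℂ) + (y : ℂ) * Complex.I)) w) y := by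
  have h3 : HasDerivAt (fun t : ℝ => w - F ((x : ℂ) + (t : ℂ) * Complex.I))
      (-(Complex.I * F' ((x : ℂ) + (y : ℂ) * Complex.I))) y := (hasDerivAt_ver h1).const_sub w
  have h4 := (((Real.hasDerivAt_rpow_const (x := y) (p := kap) (Or.inl hy.ne')).const_mul q).mul
    (hasDerivAt_MW_rpow hdl (hasDerivAt_ver h1) w (-(q / 2) - 1))).mul
    (hasDerivAt_dot h3 (hasDerivAt_ver h2))
  refine hd_of h4 (fun _ => rfl) ?_
  have h5 : ((starRingEnd ℂ) (-(Complex.I * F' ((x : ℂ) + (y : ℂ) * Complex.I))) *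
      F' ((x : ℂ) + (y : ℂ) * Complex.I)).re = 0 := by
    simp
    ring
  have h6 : -(q / 2) - 1 - 1 = -(q / 2) - 2 := by ring
  rw [h5, h6]
  simp only [Pi.mul_apply]
  unfold UXY
  ring

/-- `d_x d_y u = UXY` -/
theorem hasDerivAt_UY_x (hdl : 0 < dl)
    (h1 : HasDerivAt F (F' ((x : ℂ) + (y : ℂ) * Complex.I)) ((x : ℂ) + (y : ℂ) * Complex.I))
    (h2 : HasDerivAt F' (F'' ((x : ℂ) + (y : ℂ) * Complex.I)) ((x : ℂ) + (y : ℂ) * Complex.I))
    (w : ℂ) :
    HasDerivAt (fun t : ℝ => UY q kap dl y (F ((t : ℂ) + (y : ℂ) * Complex.I))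
        (F' ((t : ℂ) + (y : ℂ) * Complex.I)) w)
      (UXY q kap dl y (F ((x : ℂ) + (y : ℂ) * Complex.I)) (F' ((x : ℂ) + (y : ℂ) * Complex.I))
        (F'' ((x : ℂ) + (y : ℂ) * Complex.I)) w) x := by
  have h3 : HasDerivAt (fun t : ℝ => w - F ((t : ℂ) + (y : ℂ) * Complex.I))
      (-(F' ((x : ℂ) + (y : ℂ) * Complex.I))) x := (hasDerivAt_hor h1).const_sub w
  have h4 := ((hasDerivAt_MW_rpow hdl (hasDerivAt_hor h1) w (-(q / 2))).const_mul
    (kap * y ^ (kap - 1))).add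
    (((hasDerivAt_MW_rpow hdl (hasDerivAt_hor h1) w (-(q / 2) - 1)).const_mul
      (q * y ^ kap)).mul (hasDerivAt_dot h3 ((hasDerivAt_hor h2).const_mul Complex.I)))
  refine hd_of h4 (fun _ => rfl) ?_
  have h5 : ((starRingEnd ℂ) (-(F' ((x : ℂ) + (y : ℂ) * Complex.I))) *
      (Complex.I * F' ((x : ℂ) + (y : ℂ) * Complex.I))).re = 0 := by
    simp
    ring
  have h6 : -(q / 2) - 1 - 1 = -(q / 2) - 2 := by ring
  rw [h5, h6]
  unfold UXY
  ring

/-! ### Logarithmic form -/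

/-- `d_x log u = GX` -/
theorem hasDerivAt_GG_x (hdl : 0 < dl)
    (h1 : HasDerivAt F (F' ((x : ℂ) + (y : ℂ) * Complex.I)) ((x : ℂ) + (y : ℂ) * Complex.I))
    (w : ℂ) :
    HasDerivAt (fun t : ℝ => GG q kap dl y (F ((t : ℂ) + (y : ℂ) * Complex.I)) w)
      (GX q dl (F ((x : ℂ) + (y : ℂ) * Complex.I)) (F' ((x : ℂ) + (y : ℂ) * Complex.I)) w) x := by
  have h2 := ((hasDerivAt_log_MW hdl (hasDerivAt_hor h1) w).const_mul (q / 2)).const_sub
    (kap * Real.log y)
  refine hd_of h2 (fun _ => rfl) ?_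
  unfold GX
  ring

/-- `d_y log u = GY` -/
theorem hasDerivAt_GG_y (hdl : 0 < dl) (hy : 0 < y)
    (h1 : HasDerivAt F (F' ((x : ℂ) + (y : ℂ) * Complex.I)) ((x : ℂ) + (y : ℂ) * Complex.I))
    (w : ℂ) :
    HasDerivAt (fun t : ℝ => GG q kap dl t (F ((x : ℂ) + (t : ℂ) * Complex.I)) w)
      (GY q kap dl y (F ((x : ℂ) + (y : ℂ) * Complex.I)) (F' ((x : ℂ) + (y : ℂ) * Complex.I)) w)
      y := by
  have h2 := ((Real.hasDerivAt_log hy.ne').const_mul kap).sub
    ((hasDerivAt_log_MW hdl (hasDerivAt_ver h1) w).const_mul (q / 2))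
  refine hd_of h2 (fun _ => rfl) ?_
  unfold GY
  ring

/-- `d_x d_x log u = GXX` -/
theorem hasDerivAt_GX_x (hdl : 0 < dl)
    (h1 : HasDerivAt F (F' ((x : ℂ) + (y : ℂ) * Complex.I)) ((x : ℂ) + (y : ℂ) * Complex.I))
    (h2 : HasDerivAt F' (F'' ((x : ℂ) + (y : ℂ) * Complex.I)) ((x : ℂ) + (y : ℂ) * Complex.I))
    (w : ℂ) :
    HasDerivAt (fun t : ℝ => GX q dl (F ((t : ℂ) + (y : ℂ) * Complex.I))
        (F' ((t : ℂ) + (y : ℂ) * Complex.I)) w)
      (GXX q dl (F ((x : ℂ) + (y : ℂ) * Complex.I)) (F' ((x : ℂ) + (y : ℂ) * Complex.I))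
        (F'' ((x : ℂ) + (y : ℂ) * Complex.I)) w) x := by
  have h3 := (hasDerivAt_dot_div (dl := dl) hdl (hasDerivAt_hor h1) (hasDerivAt_hor h2)
    w).const_mul q
  refine hd_of h3 (fun _ => ?_) ?_
  · unfold GX
    ring
  · have h5 : ((starRingEnd ℂ) (F' ((x : ℂ) + (y : ℂ) * Complex.I)) *
        F' ((x : ℂ) + (y : ℂ) * Complex.I)).re = ‖F' ((x : ℂ) + (y : ℂ) * Complex.I)‖ ^ 2 := by
      rw [← Complex.normSq_eq_norm_sq, Complex.normSq_apply]
      simp
    rw [h5]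
    unfold GXX
    ring

/-- `d_y d_y log u = GYY` -/
theorem hasDerivAt_GY_y (hdl : 0 < dl) (hy : 0 < y)
    (h1 : HasDerivAt F (F' ((x : ℂ) + (y : ℂ) * Complex.I)) ((x : ℂ) + (y : ℂ) * Complex.I))
    (h2 : HasDerivAt F' (F'' ((x : ℂ) + (y : ℂ) * Complex.I)) ((x : ℂ) + (y : ℂ) * Complex.I))
    (w : ℂ) :
    HasDerivAt (fun t : ℝ => GY q kap dl t (F ((x : ℂ) + (t : ℂ) * Complex.I))
        (F' ((x : ℂ) + (t : ℂ) * Complex.I)) w)
      (GYY q kap dl y (F ((x : ℂ) + (y : ℂ) * Complex.I)) (F' ((x : ℂ) + (y : ℂ) * Complex.I))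
        (F'' ((x : ℂ) + (y : ℂ) * Complex.I)) w) y := by
  have h3 := ((hasDerivAt_inv hy.ne').const_mul kap).add
    ((hasDerivAt_dot_div (dl := dl) hdl (hasDerivAt_ver h1)
      ((hasDerivAt_ver h2).const_mul Complex.I) w).const_mul q)
  refine hd_of h3 (fun _ => ?_) ?_
  · unfold GY
    simp only [Pi.add_apply]
    ring
  · have h5 : ((starRingEnd ℂ) (Complex.I * F' ((x : ℂ) + (y : ℂ) * Complex.I)) *
        (Complex.I * F' ((x : ℂ) + (y : ℂ) * Complex.I))).re =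
        ‖F' ((x : ℂ) + (y : ℂ) * Complex.I)‖ ^ 2 := by
      rw [← Complex.normSq_eq_norm_sq, Complex.normSq_apply]
      simp [add_comm]
    have h6 : ((starRingEnd ℂ) (w - F ((x : ℂ) + (y : ℂ) * Complex.I)) *
        (Complex.I * (Complex.I * F'' ((x : ℂ) + (y : ℂ) * Complex.I)))).re =
        -((starRingEnd ℂ) (w - F ((x : ℂ) + (y : ℂ) * Complex.I)) *
          F'' ((x : ℂ) + (y : ℂ) * Complex.I)).re := by
      rw [← mul_assoc Complex.I, Complex.I_mul_I]
      simp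
    rw [h5, h6]
    unfold GYY
    ring

/-- `d_y d_x log u = GXY` -/
theorem hasDerivAt_GX_y (hdl : 0 < dl)
    (h1 : HasDerivAt F (F' ((x : ℂ) + (y : ℂ) * Complex.I)) ((x : ℂ) + (y : ℂ) * Complex.I))
    (h2 : HasDerivAt F' (F'' ((x : ℂ) + (y : ℂ) * Complex.I)) ((x : ℂ) + (y : ℂ) * Complex.I))
    (w : ℂ) :
    HasDerivAt (fun t : ℝ => GX q dl (F ((x : ℂ) + (t : ℂ) * Complex.I))
        (F' ((x : ℂ) + (t : ℂ) * Complex.I)) w)
      (GXY q dl (F ((x : ℂ) + (y : ℂ) * Complex.I)) (F' ((x : ℂ) + (y : ℂ) * Complex.I))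
        (F'' ((x : ℂ) + (y : ℂ) * Complex.I)) w) y := by
  have h3 := (hasDerivAt_dot_div (dl := dl) hdl (hasDerivAt_ver h1) (hasDerivAt_ver h2)
    w).const_mul q
  refine hd_of h3 (fun _ => ?_) ?_
  · unfold GX
    ring
  · have h5 : ((starRingEnd ℂ) (Complex.I * F' ((x : ℂ) + (y : ℂ) * Complex.I)) *
        F' ((x : ℂ) + (y : ℂ) * Complex.I)).re = 0 := by
      simp
      ring
    rw [h5]
    unfold GXY
    ring

/-- `d_x d_y log u = GXY` -/
theorem hasDerivAt_GY_x (hdl : 0 < dl)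
    (h1 : HasDerivAt F (F' ((x : ℂ) + (y : ℂ) * Complex.I)) ((x : ℂ) + (y : ℂ) * Complex.I))
    (h2 : HasDerivAt F' (F'' ((x : ℂ) + (y : ℂ) * Complex.I)) ((x : ℂ) + (y : ℂ) * Complex.I))
    (w : ℂ) :
    HasDerivAt (fun t : ℝ => GY q kap dl y (F ((t : ℂ) + (y : ℂ) * Complex.I))
        (F' ((t : ℂ) + (y : ℂ) * Complex.I)) w)
      (GXY q dl (F ((x : ℂ) + (y : ℂ) * Complex.I)) (F' ((x : ℂ) + (y : ℂ) * Complex.I))
        (F'' ((x : ℂ) + (y : ℂ) * Complex.I)) w) x := by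
  have h3 := ((hasDerivAt_dot_div (dl := dl) hdl (hasDerivAt_hor h1)
    ((hasDerivAt_hor h2).const_mul Complex.I) w).const_mul q).const_add (kap / y)
  refine hd_of h3 (fun _ => ?_) ?_
  · unfold GY
    ring
  · have h5 : ((starRingEnd ℂ) (F' ((x : ℂ) + (y : ℂ) * Complex.I)) *
        (Complex.I * F' ((x : ℂ) + (y : ℂ) * Complex.I))).re = 0 := by
      simp
      ring
    rw [h5]
    unfold GXY
    ring

end plane

/-! ## Joint continuity -/

section cont

variable {α : Type*} [TopologicalSpace α] {s : Set α} {q kap dl : ℝ} {y : α → ℝ}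
  {b c e w : α → ℂ}

theorem continuousOn_MW (hb : ContinuousOn b s) (hw : ContinuousOn w s) :
    ContinuousOn (fun a => MW dl (b a) (w a)) s := by
  unfold MW
  fun_prop

theorem continuousOn_MW_rpow (hdl : 0 < dl) (r : ℝ) (hb : ContinuousOn b s)
    (hw : ContinuousOn w s) : ContinuousOn (fun a => MW dl (b a) (w a) ^ r) s :=
  (continuousOn_MW hb hw).rpow_const (fun _ _ => Or.inl (MW_pos hdl _ _).ne')

theorem continuousOn_UU (hdl : 0 < dl) (hy0 : ∀ a ∈ s, 0 < y a) (hy : ContinuousOn y s)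
    (hb : ContinuousOn b s) (hw : ContinuousOn w s) :
    ContinuousOn (fun a => UU q kap dl (y a) (b a) (w a)) s :=
  (hy.rpow_const (fun a ha => Or.inl (hy0 a ha).ne')).mul (continuousOn_MW_rpow hdl _ hb hw)

theorem continuousOn_UX (hdl : 0 < dl) (hy0 : ∀ a ∈ s, 0 < y a) (hy : ContinuousOn y s)
    (hb : ContinuousOn b s) (hc : ContinuousOn c s) (hw : ContinuousOn w s) :
    ContinuousOn (fun a => UX q kap dl (y a) (b a) (c a) (w a)) s := by
  have h1 : ContinuousOn (fun a => y a ^ kap) s :=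
    hy.rpow_const (fun a ha => Or.inl (hy0 a ha).ne')
  have h2 := continuousOn_MW_rpow hdl (-(q / 2) - 1) hb hw
  have h3 : ContinuousOn (fun a => ((starRingEnd ℂ) (w a - b a) * c a).re) s := by fun_prop
  unfold UX
  fun_prop

theorem continuousOn_UY (hdl : 0 < dl) (hy0 : ∀ a ∈ s, 0 < y a) (hy : ContinuousOn y s)
    (hb : ContinuousOn b s) (hc : ContinuousOn c s) (hw : ContinuousOn w s) :
    ContinuousOn (fun a => UY q kap dl (y a) (b a) (c a) (w a)) s := by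
  have h1 : ContinuousOn (fun a => y a ^ kap) s :=
    hy.rpow_const (fun a ha => Or.inl (hy0 a ha).ne')
  have h0 : ContinuousOn (fun a => y a ^ (kap - 1)) s :=
    hy.rpow_const (fun a ha => Or.inl (hy0 a ha).ne')
  have h2 := continuousOn_MW_rpow hdl (-(q / 2) - 1) hb hw
  have h4 := continuousOn_MW_rpow hdl (-(q / 2)) hb hw
  have h3 : ContinuousOn (fun a => ((starRingEnd ℂ) (w a - b a) * (Complex.I * c a)).re) s := by
    fun_prop
  unfold UY
  fun_prop

theorem continuousOn_UXY (hdl : 0 < dl) (hy0 : ∀ a ∈ s, 0 < y a) (hy : ContinuousOn y s)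
    (hb : ContinuousOn b s) (hc : ContinuousOn c s) (he : ContinuousOn e s)
    (hw : ContinuousOn w s) :
    ContinuousOn (fun a => UXY q kap dl (y a) (b a) (c a) (e a) (w a)) s := by
  have h1 : ContinuousOn (fun a => y a ^ kap) s :=
    hy.rpow_const (fun a ha => Or.inl (hy0 a ha).ne')
  have h0 : ContinuousOn (fun a => y a ^ (kap - 1)) s :=
    hy.rpow_const (fun a ha => Or.inl (hy0 a ha).ne')
  have h2 := continuousOn_MW_rpow hdl (-(q / 2) - 1) hb hw
  have h4 := continuousOn_MW_rpow hdl (-(q / 2) - 2) hb hw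
  have h3 : ContinuousOn (fun a => ((starRingEnd ℂ) (w a - b a) * (Complex.I * c a)).re) s := by
    fun_prop
  have h5 : ContinuousOn (fun a => ((starRingEnd ℂ) (w a - b a) * c a).re) s := by fun_prop
  have h6 : ContinuousOn (fun a => ((starRingEnd ℂ) (w a - b a) * (Complex.I * e a)).re) s := by
    fun_prop
  unfold UXY
  fun_prop

theorem continuousOn_GG (hdl : 0 < dl) (hy0 : ∀ a ∈ s, 0 < y a) (hy : ContinuousOn y s)
    (hb : ContinuousOn b s) (hw : ContinuousOn w s) :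
    ContinuousOn (fun a => GG q kap dl (y a) (b a) (w a)) s := by
  have h1 : ContinuousOn (fun a => Real.log (y a)) s := hy.log (fun a ha => (hy0 a ha).ne')
  have h2 : ContinuousOn (fun a => Real.log (MW dl (b a) (w a))) s :=
    (continuousOn_MW hb hw).log (fun a _ => (MW_pos hdl _ _).ne')
  unfold GG
  fun_prop

theorem continuousOn_GX (hdl : 0 < dl) (hb : ContinuousOn b s) (hc : ContinuousOn c s)
    (hw : ContinuousOn w s) : ContinuousOn (fun a => GX q dl (b a) (c a) (w a)) s := by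
  unfold GX
  refine ContinuousOn.div ?_ (continuousOn_MW hb hw) (fun a _ => (MW_pos hdl _ _).ne')
  fun_prop

theorem continuousOn_GY (hdl : 0 < dl) (hy0 : ∀ a ∈ s, 0 < y a) (hy : ContinuousOn y s)
    (hb : ContinuousOn b s) (hc : ContinuousOn c s) (hw : ContinuousOn w s) :
    ContinuousOn (fun a => GY q kap dl (y a) (b a) (c a) (w a)) s := by
  unfold GY
  refine ContinuousOn.add (continuousOn_const.div hy (fun a ha => (hy0 a ha).ne')) ?_
  refine ContinuousOn.div ?_ (continuousOn_MW hb hw) (fun a _ => (MW_pos hdl _ _).ne')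
  fun_prop

theorem continuousOn_GXX (hdl : 0 < dl) (hb : ContinuousOn b s) (hc : ContinuousOn c s)
    (he : ContinuousOn e s) (hw : ContinuousOn w s) :
    ContinuousOn (fun a => GXX q dl (b a) (c a) (e a) (w a)) s := by
  have hM := continuousOn_MW (dl := dl) hb hw
  unfold GXX
  refine continuousOn_const.mul (ContinuousOn.add ?_ ?_)
  · refine ContinuousOn.div ?_ hM (fun a _ => (MW_pos hdl _ _).ne')
    fun_prop
  · refine ContinuousOn.div ?_ (hM.pow 2) (fun a _ => pow_ne_zero 2 (MW_pos hdl _ _).ne')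
    fun_prop

theorem continuousOn_GYY (hdl : 0 < dl) (hy0 : ∀ a ∈ s, 0 < y a) (hy : ContinuousOn y s)
    (hb : ContinuousOn b s) (hc : ContinuousOn c s) (he : ContinuousOn e s)
    (hw : ContinuousOn w s) :
    ContinuousOn (fun a => GYY q kap dl (y a) (b a) (c a) (e a) (w a)) s := by
  have hM := continuousOn_MW (dl := dl) hb hw
  unfold GYY
  refine ContinuousOn.add ?_ (continuousOn_const.mul (ContinuousOn.add ?_ ?_))
  · exact (continuousOn_const.div (hy.pow 2) (fun a ha => pow_ne_zero 2 (hy0 a ha).ne')).neg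
  · refine ContinuousOn.div ?_ hM (fun a _ => (MW_pos hdl _ _).ne')
    fun_prop
  · refine ContinuousOn.div ?_ (hM.pow 2) (fun a _ => pow_ne_zero 2 (MW_pos hdl _ _).ne')
    fun_prop

theorem continuousOn_GXY (hdl : 0 < dl) (hb : ContinuousOn b s) (hc : ContinuousOn c s)
    (he : ContinuousOn e s) (hw : ContinuousOn w s) :
    ContinuousOn (fun a => GXY q dl (b a) (c a) (e a) (w a)) s := by
  have hM := continuousOn_MW (dl := dl) hb hw
  unfold GXY
  refine continuousOn_const.mul (ContinuousOn.add ?_ ?_)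
  · refine ContinuousOn.div ?_ hM (fun a _ => (MW_pos hdl _ _).ne')
    fun_prop
  · refine ContinuousOn.div ?_ (hM.pow 2) (fun a _ => pow_ne_zero 2 (MW_pos hdl _ _).ne')
    fun_prop

end cont

end H34.EC
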