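import Mathlib

/-!
# Project EC: integrals of powers of the norm over discs of the plane
-/

set_option autoImplicit false

open Set Metric MeasureTheory

namespace H34.EC

theorem ball_rad (s ρ : ℝ) (hs : s < 2) (hρ : 0 ≤ ρ) :
    IntegrableOn (fun t : ℝ => t ^ (1 - s)) (Ioc 0 ρ) ∧
      ∫ t in Ioc 0 ρ, t ^ (1 - s) = ρ ^ (2 - s) / (2 - s) := by
  have h1 : -1 < 1 - s := by linarith
  constructor
  · exact (intervalIntegrable_iff_integrableOn_Ioc_of_le hρ).mp
      (intervalIntegral.intervalIntegrable_rpow' h1)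
  · rw [← intervalIntegral.integral_of_le hρ, integral_rpow (Or.inl h1),
      Real.zero_rpow (by linarith)]
    congr 1 <;> ring_nf

theorem ball_fun (s ρ : ℝ) (y : ℝ) (hy : 0 < y) :
    y ^ (Module.finrank ℝ ℂ - 1) • (Iic ρ).indicator (fun t : ℝ => t ^ (-s)) y =
      (Ioc 0 ρ).indicator (fun t : ℝ => t ^ (1 - s)) y := by
  rw [Complex.finrank_real_complex]
  by_cases h : y ≤ ρ
  · rw [indicator_of_mem (show y ∈ Iic ρ from h), indicator_of_mem (show y ∈ Ioc 0 ρ from ⟨hy, h⟩),
      smul_eq_mul, sub_eq_add_neg 1 s, Real.rpow_add hy, Real.rpow_one]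
    norm_num
  · rw [indicator_of_notMem (show y ∉ Iic ρ from h),
      indicator_of_notMem (show y ∉ Ioc 0 ρ from fun h' => h h'.2), smul_zero]

theorem ball_ind (s ρ : ℝ) (v : ℂ) :
    (closedBall (0 : ℂ) ρ).indicator (fun v : ℂ => ‖v‖ ^ (-s)) v =
      (Iic ρ).indicator (fun t : ℝ => t ^ (-s)) ‖v‖ := by
  by_cases h : ‖v‖ ≤ ρ
  · rw [indicator_of_mem (show v ∈ closedBall (0 : ℂ) ρ by simpa using h),
      indicator_of_mem (show ‖v‖ ∈ Iic ρ from h)]
  · rw [indicator_of_notMem (show v ∉ closedBall (0 : ℂ) ρ by simpa using h),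
      indicator_of_notMem (show ‖v‖ ∉ Iic ρ from h)]

/-- `|v|^(-s)` is integrable over every disc, `s < 2` -/
theorem integrableOn_ball_rpow (s ρ : ℝ) (hs : s < 2) (hρ : 0 ≤ ρ) :
    IntegrableOn (fun v : ℂ => ‖v‖ ^ (-s)) (closedBall (0 : ℂ) ρ) := by
  rw [← integrable_indicator_iff measurableSet_closedBall]
  have h1 : (closedBall (0 : ℂ) ρ).indicator (fun v : ℂ => ‖v‖ ^ (-s)) =
      fun v => (Iic ρ).indicator (fun t : ℝ => t ^ (-s)) ‖v‖ := funext (ball_ind s ρ)
  rw [h1, integrable_fun_norm_addHaar volume]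
  have h2 : IntegrableOn ((Ioc 0 ρ).indicator (fun t : ℝ => t ^ (1 - s))) (Ioi 0) := by
    rw [integrableOn_indicator_iff measurableSet_Ioc, Ioc_inter_Ioi, max_self]
    exact (ball_rad s ρ hs hρ).1
  exact h2.congr_fun (fun y hy => (ball_fun s ρ y hy).symm) measurableSet_Ioi

/-- the integral of `|v|^(-s)` over the disc of radius `ρ` -/
theorem integral_ball_rpow (s ρ : ℝ) (hs : s < 2) (hρ : 0 ≤ ρ) :
    ∫ v in closedBall (0 : ℂ) ρ, ‖v‖ ^ (-s) = 2 * Real.pi * ρ ^ (2 - s) / (2 - s) := by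
  rw [← integral_indicator measurableSet_closedBall]
  have h1 : (fun v : ℂ => (closedBall (0 : ℂ) ρ).indicator (fun v : ℂ => ‖v‖ ^ (-s)) v) =
      fun v => (Iic ρ).indicator (fun t : ℝ => t ^ (-s)) ‖v‖ := funext (ball_ind s ρ)
  rw [h1, integral_fun_norm_addHaar volume, setIntegral_congr_fun measurableSet_Ioi
    (fun y hy => ball_fun s ρ y hy), setIntegral_indicator measurableSet_Ioc,
    inter_comm, Ioc_inter_Ioi, max_self, (ball_rad s ρ hs hρ).2, Complex.finrank_real_complex, measureReal_def,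
    Complex.volume_ball]
  simp
  ring

/-- translated version -/
theorem integrableOn_ball_rpow' (s ρ : ℝ) (hs : s < 2) (hρ : 0 ≤ ρ) (b : ℂ) :
    IntegrableOn (fun w : ℂ => ‖b - w‖ ^ (-s)) (closedBall b ρ) := by
  rw [← integrable_indicator_iff measurableSet_closedBall]
  have h1 : (closedBall b ρ).indicator (fun w : ℂ => ‖b - w‖ ^ (-s)) =
      fun w => (closedBall (0 : ℂ) ρ).indicator (fun v : ℂ => ‖v‖ ^ (-s)) (b - w) := by
    ext w
    by_cases h : ‖b - w‖ ≤ ρ
    · rw [indicator_of_mem (show w ∈ closedBall b ρ by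
        rw [mem_closedBall, dist_eq_norm, norm_sub_rev]; exact h),
        indicator_of_mem (show b - w ∈ closedBall (0 : ℂ) ρ by simpa using h)]
    · rw [indicator_of_notMem (show w ∉ closedBall b ρ by
        rw [mem_closedBall, dist_eq_norm, norm_sub_rev]; exact h),
        indicator_of_notMem (show b - w ∉ closedBall (0 : ℂ) ρ by simpa using h)]
  rw [h1]
  exact ((integrable_indicator_iff measurableSet_closedBall).mpr
    (integrableOn_ball_rpow s ρ hs hρ)).comp_sub_left b

theorem integral_ball_rpow' (s ρ : ℝ) (hs : s < 2) (hρ : 0 ≤ ρ) (b : ℂ) :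
    ∫ w in closedBall b ρ, ‖b - w‖ ^ (-s) = 2 * Real.pi * ρ ^ (2 - s) / (2 - s) := by
  rw [← integral_ball_rpow s ρ hs hρ, ← integral_indicator measurableSet_closedBall,
    ← integral_indicator measurableSet_closedBall]
  have h1 : (fun w => (closedBall b ρ).indicator (fun w : ℂ => ‖b - w‖ ^ (-s)) w) =
      fun w => (closedBall (0 : ℂ) ρ).indicator (fun v : ℂ => ‖v‖ ^ (-s)) (b - w) := by
    ext w
    by_cases h : ‖b - w‖ ≤ ρ
    · rw [indicator_of_mem (show w ∈ closedBall b ρ by
        rw [mem_closedBall, dist_eq_norm, norm_sub_rev]; exact h),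
        indicator_of_mem (show b - w ∈ closedBall (0 : ℂ) ρ by simpa using h)]
    · rw [indicator_of_notMem (show w ∉ closedBall b ρ by
        rw [mem_closedBall, dist_eq_norm, norm_sub_rev]; exact h),
        indicator_of_notMem (show b - w ∉ closedBall (0 : ℂ) ρ by simpa using h)]
  rw [h1, integral_sub_left_eq_self
    (fun v => (closedBall (0 : ℂ) ρ).indicator (fun v : ℂ => ‖v‖ ^ (-s)) v) volume b]

/-- the form which is used: a function bounded by `C |b - w|^(-s)` on a disc and zero outside -/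
theorem bound_of (f : ℂ → ℝ) (S : Set ℂ) (hS : MeasurableSet S) (C s ρ : ℝ) (b : ℂ) (hs : s < 2)
    (hρ : 0 ≤ ρ) (hC : 0 ≤ C) (h0 : ∀ w ∈ S, 0 ≤ f w)
    (h1 : ∀ w ∈ S, ‖b - w‖ ≤ ρ → w ≠ b → f w ≤ C * ‖b - w‖ ^ (-s))
    (h2 : ∀ w ∈ S, ρ < ‖b - w‖ → f w = 0) :
    ∫ w in S, f w ≤ C * (2 * Real.pi * ρ ^ (2 - s) / (2 - s)) := by
  have hi := (integrable_indicator_iff (μ := (volume : Measure ℂ)) measurableSet_closedBall).mpr
    (integrableOn_ball_rpow' s ρ hs hρ b)
  have e1 : ∫ w in S, f w ≤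
      ∫ w in S, (closedBall b ρ).indicator (fun w : ℂ => C * ‖b - w‖ ^ (-s)) w := by
    apply integral_mono_of_nonneg
    · exact (ae_restrict_iff' hS).mpr (Filter.Eventually.of_forall fun w hw => h0 w hw)
    · have := (hi.const_mul C).integrableOn (s := S)
      refine this.congr_fun (fun w _ => ?_) hS
      by_cases h : w ∈ closedBall b ρ
      · simp only [indicator_of_mem h]
      · simp only [indicator_of_notMem h, mul_zero]
    · have hb : ∀ᵐ w : ℂ ∂(volume.restrict S), w ≠ b := by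
        refine ae_restrict_of_ae ?_
        exact Measure.ae_ne volume b
      filter_upwards [hb, (ae_restrict_iff' hS).mpr (Filter.Eventually.of_forall
        fun w (hw : w ∈ S) => hw)] with w hwb hw
      by_cases h : ‖b - w‖ ≤ ρ
      · rw [indicator_of_mem (show w ∈ closedBall b ρ by
          rw [mem_closedBall, dist_eq_norm, norm_sub_rev]; exact h)]
        exact h1 w hw h hwb
      · rw [indicator_of_notMem (show w ∉ closedBall b ρ by
          rw [mem_closedBall, dist_eq_norm, norm_sub_rev]; exact h)]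
        exact (h2 w hw (not_le.mp h)).le
  have e2 : ∫ w in S, (closedBall b ρ).indicator (fun w : ℂ => C * ‖b - w‖ ^ (-s)) w ≤
      ∫ w, (closedBall b ρ).indicator (fun w : ℂ => C * ‖b - w‖ ^ (-s)) w := by
    have e3 : (closedBall b ρ).indicator (fun w : ℂ => C * ‖b - w‖ ^ (-s)) =
        fun w => C * (closedBall b ρ).indicator (fun w : ℂ => ‖b - w‖ ^ (-s)) w := by
      ext w
      by_cases h : w ∈ closedBall b ρ
      · rw [indicator_of_mem h, indicator_of_mem h]
      · rw [indicator_of_notMem h, indicator_of_notMem h, mul_zero]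
    rw [e3]
    apply setIntegral_le_integral (hi.const_mul C)
    refine Filter.Eventually.of_forall fun w => ?_
    simp only [Pi.zero_apply]
    refine mul_nonneg hC (indicator_nonneg (fun w _ => ?_) w)
    positivity
  refine e1.trans (e2.trans ?_)
  rw [integral_indicator measurableSet_closedBall, integral_const_mul,
    integral_ball_rpow' s ρ hs hρ b]

end H34.EC
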