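import Pool.Agent.H13.EC.Def
import Pool.Agent.H34.EC.K4b

/-!
# Project EC, K4: the side term integrated over `w`
-/

set_option autoImplicit false

open Set Metric MeasureTheory

namespace H13.EC

open H62.CJ

theorem K4_EE (F : ℂ → ℂ) (δ : ℝ) (hδ : 0 < δ) (w z : ℂ) : 0 < EE F δ w z := by
  unfold EE; positivity

theorem K4_sq (F : ℂ → ℂ) (δ : ℝ) (w z : ℂ) : ‖F z - w‖ ^ 2 ≤ EE F δ w z := by
  unfold EE
  nlinarith [sq_nonneg δ]

theorem K4_QI (F : ℂ → ℂ) (w z : ℂ) : |QI F w z| ≤ ‖F z - w‖ * ‖deriv F z‖ := by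
  unfold QI
  refine (Complex.abs_im_le_norm _).trans ?_
  rw [norm_mul, RCLike.norm_conj]

theorem K4_PR (F : ℂ → ℂ) (w z : ℂ) : |PR F w z| ≤ ‖F z - w‖ * ‖deriv F z‖ := by
  unfold PR
  refine (Complex.abs_re_le_norm _).trans ?_
  rw [norm_mul, RCLike.norm_conj]

/-- `E^(-s) ≤ |v|^(-2s)` -/
theorem K4_pow (F : ℂ → ℂ) (δ : ℝ) (w z : ℂ) (hw : F z ≠ w) (s : ℝ) (hs : 0 ≤ s) :
    EE F δ w z ^ (-s) ≤ ‖F z - w‖ ^ (-(2 * s)) := by
  have h1 : 0 < ‖F z - w‖ := norm_pos_iff.mpr (sub_ne_zero.mpr hw)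
  have h2 : ‖F z - w‖ ^ (-(2 * s)) = (‖F z - w‖ ^ 2) ^ (-s) := by
    rw [← Real.rpow_natCast, ← Real.rpow_mul h1.le]
    congr 1
    push_cast
    ring
  rw [h2]
  exact Real.rpow_le_rpow_of_nonpos (by positivity) (K4_sq F δ w z) (by linarith)

theorem side_bound (F : ℂ → ℂ) (q κ δ : ℝ) (hq : 0 < q) (hq1 : q < 1) (hκ : 0 < κ) (hδ : 0 < δ)
    (z : ℂ) (hz : 0 < z.im) (hne : deriv F z ≠ 0) (r : ℝ) :
    ∫ w in closedBall (0 : ℂ) r, max 0 (-uy F q κ δ w z) ≤
      2 * Real.pi * q * (q / κ) ^ (1 - q) / (1 - q) *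
        (z.im ^ (κ - q + 1) * ‖deriv F z‖ ^ (2 - q)) := by
  have hn : 0 < ‖deriv F z‖ := norm_pos_iff.mpr hne
  have h := H34.EC.bound_of (fun w => max 0 (-uy F q κ δ w z)) (closedBall (0 : ℂ) r)
    measurableSet_closedBall (q * z.im ^ κ * ‖deriv F z‖) (q + 1)
    (q / κ * (z.im * ‖deriv F z‖)) (F z) (by linarith) (by positivity) (by positivity)
    (fun w _ => le_max_left _ _) ?_ ?_
  · refine h.trans (le_of_eq ?_)
    have e1 : 2 - (q + 1) = 1 - q := by ring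
    rw [e1, Real.mul_rpow (by positivity) (by positivity), Real.mul_rpow hz.le hn.le]
    have e2 : z.im ^ (κ - q + 1) = z.im ^ κ * z.im ^ (1 - q) := by
      rw [← Real.rpow_add hz]
      congr 1
      ring
    have e3 : ‖deriv F z‖ ^ (2 - q) = ‖deriv F z‖ * ‖deriv F z‖ ^ (1 - q) := by
      rw [show 2 - q = 1 + (1 - q) by ring, Real.rpow_add hn, Real.rpow_one]
    rw [e2, e3]
    ring
  · intro w _ _ hw
    have hv : 0 < ‖F z - w‖ := norm_pos_iff.mpr (sub_ne_zero.mpr (Ne.symm hw))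
    have hE := K4_EE F δ hδ w z
    apply max_le (by positivity)
    have a1 : EE F δ w z ^ (-(q / 2) - 1) ≤ ‖F z - w‖ ^ (-(q + 2)) := by
      have := K4_pow F δ w z (Ne.symm hw) (q / 2 + 1) (by positivity)
      rw [show -(q / 2) - 1 = -(q / 2 + 1) by ring, show -(q + 2) = -(2 * (q / 2 + 1)) by ring]
      exact this
    have a2 : ‖F z - w‖ ^ (-(q + 1)) = ‖F z - w‖ ^ (-(q + 2)) * ‖F z - w‖ := by
      rw [← Real.rpow_add_one hv.ne']
      congr 1
      ring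
    have a3 : z.im ^ κ = z.im ^ (κ - 1) * z.im := by
      rw [← Real.rpow_add_one hz.ne']
      congr 1
      ring
    have a4 : -(κ * EE F δ w z + q * z.im * QI F w z) ≤
        q * z.im * (‖F z - w‖ * ‖deriv F z‖) := by
      have b1 := K4_QI F w z
      have b2 := neg_le_abs (QI F w z)
      have b3 : q * z.im * (-QI F w z) ≤ q * z.im * (‖F z - w‖ * ‖deriv F z‖) := by
        gcongr
        linarith
      have b4 : 0 ≤ κ * EE F δ w z := by positivity
      linarith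
    have a5 : -uy F q κ δ w z = z.im ^ (κ - 1) * EE F δ w z ^ (-(q / 2) - 1) *
        -(κ * EE F δ w z + q * z.im * QI F w z) := by
      unfold uy
      ring
    rw [a5]
    calc z.im ^ (κ - 1) * EE F δ w z ^ (-(q / 2) - 1) *
          -(κ * EE F δ w z + q * z.im * QI F w z)
        ≤ z.im ^ (κ - 1) * EE F δ w z ^ (-(q / 2) - 1) *
          (q * z.im * (‖F z - w‖ * ‖deriv F z‖)) := by gcongr
      _ ≤ z.im ^ (κ - 1) * ‖F z - w‖ ^ (-(q + 2)) *
          (q * z.im * (‖F z - w‖ * ‖deriv F z‖)) := by gcongr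
      _ = q * z.im ^ κ * ‖deriv F z‖ * ‖F z - w‖ ^ (-(q + 1)) := by
          rw [a2, a3]
          ring
  · intro w _ hw
    have hE := K4_EE F δ hδ w z
    apply max_eq_left
    have b0 : κ * ‖F z - w‖ > q * (z.im * ‖deriv F z‖) := by
      rw [div_mul_eq_mul_div, div_lt_iff₀ hκ] at hw
      linarith
    have b1 := K4_QI F w z
    have b2 := neg_le_abs (QI F w z)
    have b3 : q * z.im * (-QI F w z) ≤ q * z.im * (‖F z - w‖ * ‖deriv F z‖) := by
      gcongr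
      linarith
    have b4 : κ * ‖F z - w‖ ^ 2 ≤ κ * EE F δ w z := by
      have := K4_sq F δ w z
      gcongr
    have b5 : q * (z.im * ‖deriv F z‖) * ‖F z - w‖ ≤ κ * ‖F z - w‖ * ‖F z - w‖ := by
      have := norm_nonneg (F z - w)
      nlinarith
    have b6 : 0 ≤ κ * EE F δ w z + q * z.im * QI F w z := by nlinarith
    unfold uy
    have : 0 ≤ z.im ^ (κ - 1) * EE F δ w z ^ (-(q / 2) - 1) *
        (κ * EE F δ w z + q * z.im * QI F w z) := by positivity
    linarith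

end H13.EC
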